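import Pool.Agent.R483.LT.Path

namespace Pool.Agent.R483.LT

open SimpleGraph Finset

variable {V : Type*} {G : SimpleGraph V}

def Geo (G : SimpleGraph V) (g : ℕ → V) (n : ℕ) : Prop :=
  ∀ i j, i ≤ j → j ≤ n → G.dist (g i) (g j) = j - i

theorem dist_le_of_adj (g : ℕ → V) (n : ℕ) (hG : G.Connected)
    (h : ∀ i < n, G.Adj (g i) (g (i+1))) : ∀ i j, i ≤ j → j ≤ n → G.dist (g i) (g j) ≤ j - i := by
  intro i j hij
  induction j, hij using Nat.le_induction with
  | base => intro _; simp
  | succ j hij ih =>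
    intro hj
    have h1 := ih (by omega)
    have h2 : G.dist (g j) (g (j+1)) = 1 := by
      rw [SimpleGraph.dist_eq_one_iff_adj]; exact h j (by omega)
    have h3 := hG.dist_triangle (u := g i) (v := g j) (w := g (j+1))
    omega

theorem geo_of_adj {g : ℕ → V} {n : ℕ} (hG : G.Connected)
    (h : ∀ i < n, G.Adj (g i) (g (i+1))) (hd : n ≤ G.dist (g 0) (g n)) : Geo G g n := by
  intro i j hij hj
  have h1 := dist_le_of_adj g n hG h i j hij hj
  have h2 := dist_le_of_adj g n hG h 0 i (by omega) (by omega)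
  have h3 := dist_le_of_adj g n hG h j n hj le_rfl
  have h4 := hG.dist_triangle (u := g 0) (v := g i) (w := g n)
  have h5 := hG.dist_triangle (u := g i) (v := g j) (w := g n)
  omega

theorem Geo.adj {g : ℕ → V} {n : ℕ} (h : Geo G g n) {i : ℕ} (hi : i < n) :
    G.Adj (g i) (g (i+1)) := by
  rw [← SimpleGraph.dist_eq_one_iff_adj, h i (i+1) (by omega) (by omega)]; omega

theorem Geo.ind {g : ℕ → V} {n : ℕ} (h : Geo G g n) : IndPath G g n := by
  intro i j hij hj
  have hd := h i j hij.le hj
  constructor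
  · intro he
    rw [he, SimpleGraph.dist_self] at hd
    omega
  · rw [← SimpleGraph.dist_eq_one_iff_adj, hd]
    omega

theorem exists_geo (hG : G.Connected) (u w : V) :
    ∃ g : ℕ → V, g 0 = u ∧ g (G.dist u w) = w ∧ Geo G g (G.dist u w) := by
  obtain ⟨p, hp⟩ := hG.exists_walk_length_eq_dist u w
  refine ⟨p.getVert, p.getVert_zero, ?_, ?_⟩
  · rw [← hp]; exact p.getVert_length
  · apply geo_of_adj hG
    · intro i hi
      exact p.adj_getVert_succ (by omega)
    · rw [p.getVert_zero, ← hp, p.getVert_length, hp]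

theorem geo_cons (hG : G.Connected) {g : ℕ → V} {n : ℕ} (h : Geo G g n) {u : V}
    (hu : G.Adj u (g 0)) (hd : n + 1 ≤ G.dist u (g n)) :
    Geo G (fun i => if i = 0 then u else g (i - 1)) (n + 1) := by
  apply geo_of_adj hG
  · intro i hi
    by_cases h0 : i = 0
    · subst h0; simpa using hu
    · simp only [h0, if_false, Nat.add_eq_zero_iff, one_ne_zero, and_false, if_false]
      have := h.adj (i := i - 1) (by omega)
      have e : i - 1 + 1 = i + 1 - 1 := by omega
      rw [e] at this
      exact this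
  · simpa using hd

theorem dist_adj_le (hG : G.Connected) {x y : V} (h : G.Adj x y) (w : V) :
    G.dist x w ≤ G.dist y w + 1 := by
  have h1 := hG.dist_triangle (u := x) (v := y) (w := w)
  have h2 : G.dist x y = 1 := by rw [SimpleGraph.dist_eq_one_iff_adj]; exact h
  omega

theorem dist_adj_le' (hG : G.Connected) {x y : V} (h : G.Adj x y) (w : V) :
    G.dist w x ≤ G.dist w y + 1 := by
  rw [SimpleGraph.dist_comm (u := w), SimpleGraph.dist_comm (u := w)]
  exact dist_adj_le hG h w

end Pool.Agent.R483.LT
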