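import Pool.Agent.R483.LT.Geo

namespace Pool.Agent.R483.LT

open SimpleGraph Finset

variable {V : Type*} {G : SimpleGraph V}

theorem card_AB {A B : Finset ℕ} (hA : ∀ i ∈ A, ∀ j ∈ A, j ≤ i + 2) (hB : ∀ i ∈ B, ∀ j ∈ B, j ≤ i + 2)
    (hAB : ∀ i ∈ A, ∀ j ∈ B, j ≤ i ∧ i ≤ j + 1) : A.card + B.card ≤ 3 := by
  have one : ∀ A : Finset ℕ, (∀ i ∈ A, ∀ j ∈ A, j ≤ i + 2) → A.card ≤ 3 := by
    intro A hA
    rcases A.eq_empty_or_nonempty with rfl | hne
    · simp
    · have : A ⊆ Icc (A.min' hne) (A.min' hne + 2) := by
        intro j hj
        rw [Finset.mem_Icc]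
        exact ⟨A.min'_le j hj, hA _ (A.min'_mem hne) j hj⟩
      have := Finset.card_le_card this
      rw [Nat.card_Icc] at this
      omega
  rcases A.eq_empty_or_nonempty with rfl | hAne
  · simpa using one B hB
  · rcases B.eq_empty_or_nonempty with rfl | hBne
    · simpa using one A hA
    · have h1 : B ⊆ Icc (B.min' hBne) (B.max' hBne) := by
        intro j hj
        rw [Finset.mem_Icc]
        exact ⟨B.min'_le j hj, B.le_max' j hj⟩
      have h2 : A ⊆ Icc (B.max' hBne) (B.min' hBne + 1) := by
        intro i hi
        rw [Finset.mem_Icc]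
        exact ⟨(hAB i hi _ (B.max'_mem hBne)).1, (hAB i hi _ (B.min'_mem hBne)).2⟩
      have h1' := Finset.card_le_card h1
      have h2' := Finset.card_le_card h2
      rw [Nat.card_Icc] at h1' h2'
      have h3 := Finset.card_pos.mpr hAne
      have h4 := Finset.card_pos.mpr hBne
      omega

theorem leaf_case [Fintype V] (hG : G.Connected) {n : ℕ} (hn : 2 ≤ n)
    (hrad : ∀ c, ∃ t, n + 1 ≤ G.dist c t) (hcen : ∃ c, ∀ t, G.dist c t ≤ n + 1)
    {l p0 : V} (hl : ∀ w, G.Adj l w ↔ w = p0) :
    ∃ S : Finset V, TS G S ∧ S.card = n + n + 2 := by
  classical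
  by_contra hno
  let F : V → Finset V := fun c => univ.filter (fun t => G.dist c t = n + 1)
  have hFmem : ∀ c t, t ∈ F c ↔ G.dist c t = n + 1 := by
    intro c t; simp [F]
  obtain ⟨u, hu, humin⟩ := Finset.exists_min_image (univ.filter (fun c => ∀ t, G.dist c t ≤ n + 1))
    (fun c => (F c).card) (by
      obtain ⟨c, hc⟩ := hcen
      exact ⟨c, by simp only [Finset.mem_filter, Finset.mem_univ, true_and]; exact hc⟩)
  simp only [Finset.mem_filter, Finset.mem_univ, true_and] at hu humin
  obtain ⟨v, hv⟩ := hrad u
  have huv : G.dist u v = n + 1 := le_antisymm (hu v) hv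
  let X : Finset V := univ.filter (fun x => G.Adj u x ∧ G.dist x v = n)
  have hXmem : ∀ x, x ∈ X ↔ G.Adj u x ∧ G.dist x v = n := by intro x; simp [X]
  have hXne : X.Nonempty := by
    obtain ⟨g, hg0, hg1, hg⟩ := exists_geo hG u v
    rw [huv] at hg1 hg
    refine ⟨g 1, ?_⟩
    rw [hXmem]
    refine ⟨?_, ?_⟩
    · have := hg.adj (i := 0) (by omega)
      rwa [hg0] at this
    · have := hg 1 (n+1) (by omega) le_rfl
      rw [hg1] at this
      omega
  have claim1 : ∀ x ∈ X, ∃ w, G.dist u w = n ∧ G.dist x w = n + 1 := by
    intro x hx
    rw [hXmem] at hx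
    obtain ⟨hux, hxv⟩ := hx
    by_cases hbig : ∃ t, n + 2 ≤ G.dist x t
    · obtain ⟨t, ht⟩ := hbig
      have h1 := dist_adj_le hG hux.symm t
      have h2 := hu t
      have hut : G.dist u t = n + 1 := by omega
      obtain ⟨g, hg0, hg1, hg⟩ := exists_geo hG u t
      rw [hut] at hg1 hg
      refine ⟨g n, ?_, ?_⟩
      · have := hg 0 n (by omega) (by omega)
        rw [hg0] at this
        omega
      · have h3 := hg 0 n (by omega) (by omega)
        rw [hg0] at h3
        have h4 := hg.adj (i := n) (by omega)
        rw [hg1] at h4
        have h5 := dist_adj_le' hG h4.symm x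
        have h6 := dist_adj_le hG hux.symm (g n)
        omega
    · push Not at hbig
      have hxc : ∀ t, G.dist x t ≤ n + 1 := fun t => by have := hbig t; omega
      have hcard := humin x hxc
      have : ∃ w ∈ F x, w ∉ F u := by
        by_contra hcon
        push Not at hcon
        have hsub : F x ⊆ F u := hcon
        have heq := Finset.eq_of_subset_of_card_le hsub hcard
        have hvF : v ∈ F u := by rw [hFmem]; exact huv
        rw [← heq, hFmem] at hvF
        omega
      obtain ⟨w, hw1, hw2⟩ := this
      rw [hFmem] at hw1 hw2
      refine ⟨w, ?_, hw1⟩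
      have h1 := hu w
      have h2 := dist_adj_le hG hux.symm w
      omega
  let Cov : V → Finset V := fun x => univ.filter (fun w => G.dist u w = n ∧ G.dist x w = n - 1)
  have hCmem : ∀ x w, w ∈ Cov x ↔ G.dist u w = n ∧ G.dist x w = n - 1 := by
    intro x w; simp [Cov]
  obtain ⟨x, hxX, hxmax⟩ := Finset.exists_max_image X (fun x => (Cov x).card) hXne
  obtain ⟨w2, hw2u, hw2x⟩ := claim1 x hxX
  rw [hXmem] at hxX
  obtain ⟨hux, hxv⟩ := hxX
  obtain ⟨b, hb0, hb1, hb⟩ := exists_geo hG u w2
  rw [hw2u] at hb1 hb
  have hub : ∀ j, j ≤ n → G.dist u (b j) = j := by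
    intro j hj
    have := hb 0 j (by omega) hj
    rw [hb0] at this; omega
  have hxb : ∀ j, j ≤ n → G.dist x (b j) = j + 1 := by
    intro j hj
    have h1 := dist_adj_le hG hux.symm (b j)
    have h2 := hub j hj
    have h3 := hb j n hj le_rfl
    rw [hb1] at h3
    have h4 := hG.dist_triangle (u := x) (v := b j) (w := w2)
    omega
  -- cross facts for geodesics through x
  have cross : ∀ (P : ℕ → V) (k : ℕ), Geo G P k → P 0 = u → P 1 = x → ∀ i j, 1 ≤ i → i ≤ k → 1 ≤ j → j ≤ n →
      P i ≠ b j ∧ (G.Adj (P i) (b j) → i = j + 1) := by
    intro P k hP hP0 hP1 i j hi1 hik hj1 hjn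
    have h1 := hP 0 i (by omega) hik
    rw [hP0] at h1
    have h2 := hP 1 i hi1 hik
    rw [hP1] at h2
    have h3 := hub j hjn
    have h4 := hxb j hjn
    refine ⟨?_, ?_⟩
    · intro he
      rw [he] at h1 h2
      omega
    · intro ha
      have h5 := dist_adj_le' hG ha.symm x
      have h6 := dist_adj_le' hG ha u
      omega
  have hA : ∀ P : ℕ → V, Geo G P (n + 1) → P 0 = u → P 1 = x →
      ∃ j, 1 ≤ j ∧ j ≤ n ∧ G.Adj (P (j + 1)) (b j) := by
    intro P hP hP0 hP1
    by_contra hcon
    push Not at hcon
    apply hno
    have hind : IndPath G (two b P n) (n + (n + 1)) := by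
      apply two_ind hb.ind hP.ind (hb0.trans hP0.symm)
      intro i j hi hin hj hjn
      have := cross P (n+1) hP hP0 hP1 j i hj hjn hi hin
      refine ⟨this.1.symm, ?_⟩
      intro ha
      have h2 := this.2 ha.symm
      rw [h2] at ha
      exact hcon i hi hin ha.symm
    exact ⟨_, hind.ts 0 (n + (n+1)) (by omega) le_rfl, by rw [hind.card 0 _ le_rfl]; omega⟩
  -- a geodesic from u through x to v
  obtain ⟨P, hP0, hP1, hPv, hP⟩ : ∃ P : ℕ → V, P 0 = u ∧ P 1 = x ∧ P (n+1) = v ∧ Geo G P (n+1) := by
    obtain ⟨g, hg0, hg1, hg⟩ := exists_geo hG x v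
    rw [hxv] at hg1 hg
    refine ⟨fun i => if i = 0 then u else g (i - 1), by simp, by simp [hg0], by simp [hg1], ?_⟩
    apply geo_cons hG hg
    · rw [hg0]; exact hux
    · rw [hg1, huv]
  have huP : ∀ i, i ≤ n + 1 → G.dist u (P i) = i := by
    intro i hi
    have := hP 0 i (by omega) hi
    rw [hP0] at this; omega
  set y := b 1 with hy
  have huy : G.Adj u y := by
    have := hb.adj (i := 0) (by omega)
    rwa [hb0] at this
  have hyb : ∀ j, 1 ≤ j → j ≤ n → G.dist y (b j) = j - 1 := fun j h1 h2 => hb 1 j h1 h2
  have hyv : G.dist y v = n := by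
    obtain ⟨j, hj1, hjn, hja⟩ := hA P hP hP0 hP1
    have h1 := hyb j hj1 hjn
    have h2 := hP (j+1) (n+1) (by omega) le_rfl
    rw [hPv] at h2
    have h3 := dist_adj_le hG hja.symm v
    have h4 := hG.dist_triangle (u := y) (v := b j) (w := v)
    have h5 := dist_adj_le hG huy v
    omega
  have hyX : y ∈ X := by rw [hXmem]; exact ⟨huy, hyv⟩
  have hcov := hxmax y hyX
  have hw2y : w2 ∈ Cov y := by
    rw [hCmem]
    refine ⟨hw2u, ?_⟩
    have := hyb n (by omega) le_rfl
    rw [hb1] at this
    exact this
  have hw2nx : w2 ∉ Cov x := by
    rw [hCmem]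
    omega
  obtain ⟨w1, hw1x, hw1y⟩ : ∃ w ∈ Cov x, w ∉ Cov y := by
    by_contra hcon
    push Not at hcon
    have hsub : Cov x ⊆ Cov y := hcon
    have heq := Finset.eq_of_subset_of_card_le hsub hcov
    exact hw2nx (heq ▸ hw2y)
  rw [hCmem] at hw1x hw1y
  obtain ⟨hw1u, hw1x⟩ := hw1x
  have hw1y' : n ≤ G.dist y w1 := by
    have := dist_adj_le hG huy w1
    have h2 : G.dist y w1 ≠ n - 1 := fun h => hw1y ⟨hw1u, h⟩
    omega
  obtain ⟨a, ha0, ha1, haw, ha⟩ : ∃ a : ℕ → V, a 0 = u ∧ a 1 = x ∧ a n = w1 ∧ Geo G a n := by
    obtain ⟨g, hg0, hg1, hg⟩ := exists_geo hG x w1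
    rw [hw1x] at hg1 hg
    have e : n = n - 1 + 1 := by omega
    refine ⟨fun i => if i = 0 then u else g (i - 1), by simp, by simp [hg0], ?_, ?_⟩
    · simp only [show n ≠ 0 by omega, if_false]; exact hg1
    · have := geo_cons hG hg (u := u) (by rw [hg0]; exact hux) (by rw [hg1, hw1u]; omega)
      rwa [← e] at this
  have hua : ∀ i, i ≤ n → G.dist u (a i) = i := by
    intro i hi
    have := ha 0 i (by omega) hi
    rw [ha0] at this; omega
  have hxa : ∀ i, 1 ≤ i → i ≤ n → G.dist x (a i) = i - 1 := by
    intro i hi hin
    have := ha 1 i hi hin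
    rwa [ha1] at this
  have hya : ∀ i, 1 ≤ i → i ≤ n → i ≤ G.dist y (a i) := by
    intro i hi hin
    have h1 := ha i n hin le_rfl
    rw [haw] at h1
    have h2 := hG.dist_triangle (u := y) (v := a i) (w := w1)
    omega
  have hab : ∀ i j, 1 ≤ i → i ≤ n → 1 ≤ j → j ≤ n → a i ≠ b j ∧ ¬ G.Adj (a i) (b j) := by
    intro i j hi hin hj hjn
    have h1 := cross a n ha ha0 ha1 i j hi hin hj hjn
    refine ⟨h1.1, ?_⟩
    intro hadj
    have h2 := h1.2 hadj
    have h3 := dist_adj_le' hG hadj y
    have h4 := hya i hi hin
    have h5 := hyb j hj hjn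
    omega
  have hT : IndPath G (two a b n) (n + n) := two_ind ha.ind hb.ind (ha0.trans hb0.symm) hab
  -- the values of the two-sided path
  have hTa : ∀ k, k ≤ n → two a b n (n - k) = a k := by
    intro k hk
    unfold two
    rw [if_pos (by omega)]
    congr 1; omega
  have hTb : ∀ k, two a b n (n + k) = b k := by
    intro k
    unfold two
    by_cases hk : k = 0
    · subst hk
      simp [ha0, hb0]
    · rw [if_neg (by omega)]
      congr 1; omega
  -- to prove a statement for all i ≤ 2n
  have hTall : ∀ (Q : ℕ → V → Prop), (∀ k, 1 ≤ k → k ≤ n → Q (n - k) (a k)) → Q n u →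
      (∀ k, 1 ≤ k → k ≤ n → Q (n + k) (b k)) → ∀ i ≤ n + n, Q i (two a b n i) := by
    intro Q h1 h2 h3 i hi
    rcases lt_trichotomy i n with h | h | h
    · have := h1 (n - i) (by omega) (by omega)
      rw [← hTa (n - i) (by omega)] at this
      have e : n - (n - i) = i := by omega
      rwa [e] at this
    · subst h
      have := hTa 0 (by omega)
      rw [Nat.sub_zero, ha0] at this
      rw [this]; exact h2
    · have := h3 (i - n) (by omega) (by omega)
      rw [← hTb (i - n)] at this
      have e : n + (i - n) = i := by omega
      rwa [e] at this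
  -- the largest rung
  obtain ⟨j, hj1, hjn, hja, hjmax⟩ : ∃ j, 1 ≤ j ∧ j ≤ n ∧ G.Adj (P (j + 1)) (b j) ∧
      ∀ k, j < k → k ≤ n → ¬ G.Adj (P (k + 1)) (b k) := by
    have hne : ((Icc 1 n).filter (fun j => G.Adj (P (j+1)) (b j))).Nonempty := by
      obtain ⟨j, h1, h2, h3⟩ := hA P hP hP0 hP1
      exact ⟨j, by rw [Finset.mem_filter, Finset.mem_Icc]; exact ⟨⟨h1, h2⟩, h3⟩⟩
    obtain ⟨j, hj, hjm⟩ := Finset.exists_max_image _ id hne
    rw [Finset.mem_filter, Finset.mem_Icc] at hj
    refine ⟨j, hj.1.1, hj.1.2, hj.2, ?_⟩
    intro k hk hkn hka
    have := hjm k (by rw [Finset.mem_filter, Finset.mem_Icc]; exact ⟨⟨by omega, hkn⟩, hka⟩)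
    simp only [id] at this
    omega
  have hyP : ∀ i, j + 1 ≤ i → i ≤ n + 1 → G.dist y (P i) = i - 1 := by
    intro i hi hin
    have h1 := hyb j hj1 hjn
    have h2 := hP (j+1) i hi hin
    have h3 := hG.dist_triangle (u := y) (v := b j) (w := P i)
    have h4 := dist_adj_le hG hja.symm (P i)
    have h5 := dist_adj_le hG huy (P i)
    have h6 := huP i hin
    omega
  -- neighbours in T of the vertices P i, i > j
  have hPu : ∀ i, j + 1 ≤ i → i ≤ n + 1 → P i ≠ u ∧ ¬ G.Adj (P i) u := by
    intro i hi hin
    have h1 := huP i hin
    refine ⟨?_, ?_⟩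
    · intro he
      rw [he, SimpleGraph.dist_self] at h1
      omega
    · intro hadj
      rw [SimpleGraph.dist_eq_one_iff_adj.mpr hadj.symm] at h1
      omega
  have hPb : ∀ i k, j + 1 ≤ i → i ≤ n + 1 → 1 ≤ k → k ≤ n → P i ≠ b k ∧
      (G.Adj (P i) (b k) ↔ (i = j + 1 ∧ k = j)) := by
    intro i k hi hin hk hkn
    have h1 := cross P (n+1) hP hP0 hP1 i k (by omega) hin hk hkn
    refine ⟨h1.1, ?_⟩
    constructor
    · intro hadj
      have h2 := h1.2 hadj
      subst h2
      have h3 : ¬ j < k := fun h => hjmax k h hkn hadj
      omega
    · rintro ⟨rfl, rfl⟩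
      exact hja
  have hPa : ∀ i k, j + 1 ≤ i → i ≤ n + 1 → 1 ≤ k → k ≤ n → P i ≠ a k ∧
      (G.Adj (P i) (a k) → (k + 1 = i ∨ k = i)) := by
    intro i k hi hin hk hkn
    have h1 := huP i hin
    have h2 := hyP i hi hin
    have h3 := hua k hkn
    have h4 := hya k hk hkn
    refine ⟨?_, ?_⟩
    · intro he
      rw [he] at h1 h2
      omega
    · intro hadj
      have h5 := dist_adj_le' hG hadj.symm y
      have h6 := dist_adj_le' hG hadj u
      omega
  have hPT : ∀ i, j + 1 ≤ i → i ≤ n + 1 → ∀ k ≤ n + n, P i ≠ two a b n k := by
    intro i hi hin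
    exact hTall (fun _ w => P i ≠ w) (fun k h1 h2 => (hPa i k hi hin h1 h2).1) (hPu i hi hin).1
      (fun k h1 h2 => (hPb i k hi hin h1 h2).1)
  rcases Nat.lt_or_ge j n with hjn' | hjn'
  · -- case (B)
    have hz := hPT (j+1) (by omega) (by omega)
    have hz' := hPT (j+2) (by omega) (by omega)
    have hzz : G.Adj (P (j+2)) (P (j+1)) := (hP.adj (i := j+1) (by omega)).symm
    by_cases hB1 : G.Adj (P (j+2)) (a (j+1))
    · -- new geodesic without rung
      have hP' : Geo G (fun i => if i ≤ j + 1 then a i else P i) (n+1) := by
        apply geo_of_adj hG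
        · intro i hi
          by_cases h1 : i + 1 ≤ j + 1
          · simp only [h1, if_true, show i ≤ j + 1 by omega]
            exact ha.adj (by omega)
          · by_cases h2 : i ≤ j + 1
            · have : i = j + 1 := by omega
              subst this
              simp only [le_refl, if_true, h1, if_false]
              exact hB1.symm
            · simp only [h1, h2, if_false]
              exact hP.adj hi
        · simp only [Nat.zero_le, if_true, show ¬ (n + 1 ≤ j + 1) by omega, if_false]
          rw [ha0, hPv, huv]
      obtain ⟨k, hk1, hkn, hka⟩ := hA _ hP' (by simp [ha0]) (by simp [ha1])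
      by_cases h1 : k + 1 ≤ j + 1
      · simp only [h1, if_true] at hka
        exact (hab (k+1) k (by omega) (by omega) hk1 hkn).2 hka
      · simp only [h1, if_false] at hka
        exact hjmax k (by omega) hkn hka
    · by_cases hB2 : j + 2 ≤ n ∧ G.Adj (P (j+2)) (a (j+2))
      · apply hno
        apply L2 hT (z := P (j+2)) (i0 := n - (j+2)) hz' (by omega)
        apply hTall (fun i w => (G.Adj (P (j+2)) w ↔ i = n - (j+2)))
        · intro k hk hkn
          constructor
          · intro hadj
            rcases (hPa (j+2) k (by omega) (by omega) hk hkn).2 hadj with h | h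
            · have : k = j + 1 := by omega
              subst this
              exact absurd hadj hB1
            · omega
          · intro h
            have : k = j + 2 := by omega
            subst this
            exact hB2.2
        · constructor
          · intro h; exact absurd h (hPu (j+2) (by omega) (by omega)).2
          · intro h; omega
        · intro k hk hkn
          rw [(hPb (j+2) k (by omega) (by omega) hk hkn).2]
          omega
      · have hnT : ∀ i ≤ n + n, ¬ G.Adj (P (j+2)) (two a b n i) := by
          apply hTall (fun i w => ¬ G.Adj (P (j+2)) w)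
          · intro k hk hkn hadj
            rcases (hPa (j+2) k (by omega) (by omega) hk hkn).2 hadj with h | h
            · have : k = j + 1 := by omega
              subst this
              exact hB1 hadj
            · subst h
              exact hB2 ⟨hkn, hadj⟩
          · exact (hPu (j+2) (by omega) (by omega)).2
          · intro k hk hkn
            rw [(hPb (j+2) k (by omega) (by omega) hk hkn).2]
            omega
        apply hno
        by_cases c1 : G.Adj (P (j+1)) (a j) <;> by_cases c2 : G.Adj (P (j+1)) (a (j+1))
        · -- both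
          apply L1 hT (z := P (j+1)) (z' := P (j+2)) (k := n - j) (i1 := n - (j+1)) (i3 := n + j)
            hz hz' (by omega) (by omega) (by omega) _ hzz hnT
          apply hTall (fun i w => i ≠ n - j → (G.Adj (P (j+1)) w ↔ (i = n - (j+1) ∨ i = n + j)))
          · intro k hk hkn hne
            constructor
            · intro hadj
              have := (hPa (j+1) k (by omega) (by omega) hk hkn).2 hadj
              omega
            · intro h
              have : k = j + 1 := by omega
              subst this
              exact c2
          · intro _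
            constructor
            · intro h; exact absurd h (hPu (j+1) (by omega) (by omega)).2
            · intro h; omega
          · intro k hk hkn _
            rw [(hPb (j+1) k (by omega) (by omega) hk hkn).2]
            omega
        · -- only a_j
          apply L1 hT (z := P (j+1)) (z' := P (j+2)) (k := n) (i1 := n - j) (i3 := n + j)
            hz hz' (by omega) (by omega) (by omega) _ hzz hnT
          apply hTall (fun i w => i ≠ n → (G.Adj (P (j+1)) w ↔ (i = n - j ∨ i = n + j)))
          · intro k hk hkn hne
            constructor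
            · intro hadj
              rcases (hPa (j+1) k (by omega) (by omega) hk hkn).2 hadj with h | h
              · omega
              · subst h; exact absurd hadj c2
            · intro h
              have : k = j := by omega
              subst this
              exact c1
          · intro h; exact absurd rfl h
          · intro k hk hkn _
            rw [(hPb (j+1) k (by omega) (by omega) hk hkn).2]
            omega
        · -- only a_(j+1)
          apply L1 hT (z := P (j+1)) (z' := P (j+2)) (k := n) (i1 := n - (j+1)) (i3 := n + j)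
            hz hz' (by omega) (by omega) (by omega) _ hzz hnT
          apply hTall (fun i w => i ≠ n → (G.Adj (P (j+1)) w ↔ (i = n - (j+1) ∨ i = n + j)))
          · intro k hk hkn hne
            constructor
            · intro hadj
              rcases (hPa (j+1) k (by omega) (by omega) hk hkn).2 hadj with h | h
              · have : k = j := by omega
                subst this
                exact absurd hadj c1
              · omega
            · intro h
              have : k = j + 1 := by omega
              subst this
              exact c2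
          · intro h; exact absurd rfl h
          · intro k hk hkn _
            rw [(hPb (j+1) k (by omega) (by omega) hk hkn).2]
            omega
        · -- none
          apply L2 hT (z := P (j+1)) (i0 := n + j) hz (by omega)
          apply hTall (fun i w => (G.Adj (P (j+1)) w ↔ i = n + j))
          · intro k hk hkn
            constructor
            · intro hadj
              rcases (hPa (j+1) k (by omega) (by omega) hk hkn).2 hadj with h | h
              · have : k = j := by omega
                subst this
                exact absurd hadj c1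
              · subst h; exact absurd hadj c2
            · intro h; omega
          · constructor
            · intro h; exact absurd h (hPu (j+1) (by omega) (by omega)).2
            · intro h; omega
          · intro k hk hkn
            rw [(hPb (j+1) k (by omega) (by omega) hk hkn).2]
            omega
  · -- case (C)
    have hj : j = n := by omega
    subst hj
    have hvT := hPT (j+1) le_rfl le_rfl
    by_cases hC1 : G.Adj (P (j+1)) (a j)
    · have hva : ∀ i ≤ j + j, G.Adj (P (j+1)) (two a b j i) ↔ (i = 0 ∨ i = j + j) := by
        apply hTall (fun i w => (G.Adj (P (j+1)) w ↔ (i = 0 ∨ i = j + j)))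
        · intro k hk hkn
          constructor
          · intro hadj
            have := (hPa (j+1) k le_rfl le_rfl hk hkn).2 hadj
            omega
          · intro h
            have : k = j := by omega
            subst this
            exact hC1
        · constructor
          · intro h; exact absurd h (hPu (j+1) le_rfl le_rfl).2
          · intro h; omega
        · intro k hk hkn
          rw [(hPb (j+1) k le_rfl le_rfl hk hkn).2]
          omega
      set C : Finset V := insert (P (j+1)) ((Icc 0 (j+j)).image (two a b j)) with hC
      have hmemT : ∀ i ≤ j + j, two a b j i ∈ C := by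
        intro i hi
        rw [hC, Finset.mem_insert]
        right
        exact Finset.mem_image_of_mem _ (by rw [Finset.mem_Icc]; omega)
      have hvC : P (j+1) ∈ C := Finset.mem_insert_self _ _
      have hCcases : ∀ c ∈ C, c = P (j+1) ∨ ∃ i ≤ j + j, c = two a b j i := by
        intro c hc
        rw [hC, Finset.mem_insert, Finset.mem_image] at hc
        rcases hc with h | ⟨i, hi, h⟩
        · left; exact h
        · right; exact ⟨i, (Finset.mem_Icc.mp hi).2, h.symm⟩
      have hlC : l ∉ C := by
        intro hlc
        rcases hCcases l hlc with h | ⟨i, hi, h⟩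
        · have e1 := (hl (two a b j 0)).mp (by rw [h, hva 0 (by omega)]; left; rfl)
          have e2 := (hl (two a b j (j+j))).mp (by rw [h, hva (j+j) le_rfl]; right; rfl)
          have := hT.inj (by omega) le_rfl (e1.trans e2.symm)
          omega
        · by_cases hi0 : i = 0
          · subst hi0
            have e1 := (hl (two a b j 1)).mp (by rw [h, hT.adj_iff (by omega) (by omega)]; left; rfl)
            have e2 := (hl (P (j+1))).mp (by rw [h, G.adj_comm, hva 0 (by omega)]; left; rfl)
            exact hvT 1 (by omega) (e2.trans e1.symm)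
          · have e1 := (hl (two a b j (i-1))).mp
              (by rw [h, hT.adj_iff (by omega) (by omega)]; right; omega)
            by_cases him : i = j + j
            · have e2 := (hl (P (j+1))).mp (by rw [h, G.adj_comm, hva i hi]; right; exact him)
              exact hvT (i-1) (by omega) (e2.trans e1.symm)
            · have e2 := (hl (two a b j (i+1))).mp
                (by rw [h, hT.adj_iff (by omega) (by omega)]; left; omega)
              have := hT.inj (by omega) (by omega) (e1.trans e2.symm)
              omega
      by_cases hlc : ∃ c ∈ C, G.Adj l c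
      · obtain ⟨c, hcC, hlc⟩ := hlc
        have hcp : c = p0 := (hl c).mp hlc
        obtain ⟨w, hwC, hwc⟩ : ∃ w ∈ C, w ≠ c := by
          by_cases hcv : c = P (j+1)
          · exact ⟨two a b j 0, hmemT 0 (by omega), by rw [hcv]; exact (hvT 0 (by omega)).symm⟩
          · exact ⟨P (j+1), hvC, fun h => hcv h.symm⟩
        obtain ⟨t', ht', himg⟩ := rot hT (by omega) hvT hva hwC
        have hcm : c ∈ (Icc 0 (j+j)).image t' := by
          rw [himg, Finset.mem_erase]; exact ⟨hwc.symm, hcC⟩
        rw [Finset.mem_image] at hcm
        obtain ⟨i0, hi0, hi0c⟩ := hcm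
        have hi0' : i0 ≤ j + j := (Finset.mem_Icc.mp hi0).2
        apply hno
        apply L2 ht' (z := l) (i0 := i0) _ hi0'
        · intro i hi
          rw [hl, ← hcp, ← hi0c]
          constructor
          · intro h; exact ht'.inj hi hi0' h
          · intro h; rw [h]
        · intro i hi he
          apply hlC
          have : t' i ∈ (Icc 0 (j+j)).image t' :=
            Finset.mem_image_of_mem _ (by rw [Finset.mem_Icc]; omega)
          rw [himg, Finset.mem_erase] at this
          rw [he]
          exact this.2
      · push Not at hlc
        let D : Set V := {w | w ∈ C ∨ ∃ c ∈ C, G.Adj w c}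
        obtain ⟨wk⟩ := hG.preconnected (P (j+1)) l
        obtain ⟨d, _, hd1, hd2⟩ := wk.exists_boundary_dart D (Or.inl hvC) (by
          rintro (h | ⟨c, hc, hlc'⟩)
          · exact hlC h
          · exact hlc c hc hlc')
        have hdadj : G.Adj d.fst d.snd := d.adj
        generalize d.fst = z at *
        generalize d.snd = z' at *
        have hz'C : z' ∉ C := fun h => hd2 (Or.inl h)
        have hz'n : ∀ c ∈ C, ¬ G.Adj z' c := fun c hc h => hd2 (Or.inr ⟨c, hc, h⟩)
        have hzC : z ∉ C := fun h => hz'n z h hdadj.symm
        obtain ⟨c0, hc0, hzc0⟩ : ∃ c ∈ C, G.Adj z c := by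
          rcases hd1 with h | h
          · exact absurd h hzC
          · exact h
        apply hno
        apply cyc hT (by omega) hvT hva hzC hz'C hdadj.symm hz'n (C.filter (fun c => G.Adj z c))
          (by intro c; rw [Finset.mem_filter])
        · exact Finset.card_pos.mpr ⟨c0, by rw [Finset.mem_filter]; exact ⟨hc0, hzc0⟩⟩
        · -- at most four neighbours
          set A := (Icc 1 j).filter (fun i => G.Adj z (a i)) with hAdef
          set B := (Icc 1 j).filter (fun i => G.Adj z (b i)) with hBdef
          have hAm : ∀ i, i ∈ A ↔ (1 ≤ i ∧ i ≤ j) ∧ G.Adj z (a i) := by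
            intro i; rw [hAdef, Finset.mem_filter, Finset.mem_Icc]
          have hBm : ∀ i, i ∈ B ↔ (1 ≤ i ∧ i ≤ j) ∧ G.Adj z (b i) := by
            intro i; rw [hBdef, Finset.mem_filter, Finset.mem_Icc]
          have hAB : A.card + B.card ≤ 3 := by
            apply card_AB
            · intro i hi i' hi'
              rw [hAm] at hi hi'
              have h1 := dist_adj_le' hG hi'.2.symm u
              have h2 := dist_adj_le' hG hi.2 u
              have h3 := hua i hi.1.2
              have h4 := hua i' hi'.1.2
              omega
            · intro i hi i' hi'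
              rw [hBm] at hi hi'
              have h1 := dist_adj_le' hG hi'.2.symm u
              have h2 := dist_adj_le' hG hi.2 u
              have h3 := hub i hi.1.2
              have h4 := hub i' hi'.1.2
              omega
            · intro i hi k hk
              rw [hAm] at hi
              rw [hBm] at hk
              have h1 := dist_adj_le' hG hk.2.symm x
              have h2 := dist_adj_le' hG hi.2 x
              have h3 := hxa i hi.1.1 hi.1.2
              have h4 := hxb k hk.1.2
              have h5 := dist_adj_le' hG hi.2.symm y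
              have h6 := dist_adj_le' hG hk.2 y
              have h7 := hya i hi.1.1 hi.1.2
              have h8 := hyb k hk.1.1 hk.1.2
              omega
          have hUV : (({u, P (j+1)} : Finset V).filter (fun c => G.Adj z c)).card ≤ 1 := by
            rw [Finset.card_le_one]
            intro s hs s' hs'
            rw [Finset.mem_filter, Finset.mem_insert, Finset.mem_singleton] at hs hs'
            have hnot : ¬ (G.Adj z u ∧ G.Adj z (P (j+1))) := by
              rintro ⟨h1, h2⟩
              have h3 := dist_adj_le hG h1.symm (P (j+1))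
              have h4 := SimpleGraph.dist_eq_one_iff_adj.mpr h2
              have h5 := huP (j+1) le_rfl
              omega
            rcases hs with ⟨rfl | rfl, h1⟩ <;> rcases hs' with ⟨rfl | rfl, h2⟩
            · rfl
            · exact absurd ⟨h1, h2⟩ hnot
            · exact absurd ⟨h2, h1⟩ hnot
            · rfl
          have hsub : C.filter (fun c => G.Adj z c) ⊆
              ({u, P (j+1)} : Finset V).filter (fun c => G.Adj z c) ∪ (A.image a ∪ B.image b) := by
            intro c hc
            rw [Finset.mem_filter] at hc
            obtain ⟨hcC, hca⟩ := hc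
            rw [Finset.mem_union, Finset.mem_union, Finset.mem_filter, Finset.mem_insert,
              Finset.mem_singleton]
            rcases hCcases c hcC with h | ⟨i, hi, h⟩
            · left; exact ⟨Or.inr h, hca⟩
            · subst h
              have := hTall (fun _ w => G.Adj z w → ((w = u ∨ w = P (j+1)) ∧ G.Adj z w) ∨
                (w ∈ A.image a ∨ w ∈ B.image b)) ?_ ?_ ?_ i hi hca
              · exact this
              · intro k hk hkn hadj
                right; left
                exact Finset.mem_image_of_mem _ ((hAm k).mpr ⟨⟨hk, hkn⟩, hadj⟩)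
              · intro hadj
                left; exact ⟨Or.inl rfl, hadj⟩
              · intro k hk hkn hadj
                right; right
                exact Finset.mem_image_of_mem _ ((hBm k).mpr ⟨⟨hk, hkn⟩, hadj⟩)
          have h1 := Finset.card_le_card hsub
          have h2 := Finset.card_union_le (({u, P (j+1)} : Finset V).filter (fun c => G.Adj z c))
            (A.image a ∪ B.image b)
          have h3 := Finset.card_union_le (A.image a) (B.image b)
          have h4 := Finset.card_image_le (s := A) (f := a)
          have h5 := Finset.card_image_le (s := B) (f := b)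
          omega
    · apply hno
      apply L2 hT (z := P (j+1)) (i0 := j + j) hvT (by omega)
      apply hTall (fun i w => (G.Adj (P (j+1)) w ↔ i = j + j))
      · intro k hk hkn
        constructor
        · intro hadj
          have := (hPa (j+1) k le_rfl le_rfl hk hkn).2 hadj
          have : k = j := by omega
          subst this
          exact absurd hadj hC1
        · intro h; omega
      · constructor
        · intro h; exact absurd h (hPu (j+1) le_rfl le_rfl).2
        · intro h; omega
      · intro k hk hkn
        rw [(hPb (j+1) k le_rfl le_rfl hk hkn).2]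
        omega

end Pool.Agent.R483.LT
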