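import Pool.Agent.R483.LT.TS

/-!
Induced paths, geodesics, and the three ways to attach vertices to an induced path.
-/

namespace Pool.Agent.R483.LT

open SimpleGraph Finset

variable {V : Type*} {G : SimpleGraph V} [DecidableEq V]

def IndPath (G : SimpleGraph V) (t : ℕ → V) (m : ℕ) : Prop :=
  ∀ i j, i < j → j ≤ m → t i ≠ t j ∧ (G.Adj (t i) (t j) ↔ j = i + 1)

theorem IndPath.inj {t : ℕ → V} {m : ℕ} (h : IndPath G t m) {i j : ℕ} (hi : i ≤ m) (hj : j ≤ m)
    (he : t i = t j) : i = j := by
  rcases lt_trichotomy i j with h1 | h1 | h1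
  · exact absurd he (h i j h1 hj).1
  · exact h1
  · exact absurd he.symm (h j i h1 hi).1

theorem IndPath.adj_iff {t : ℕ → V} {m : ℕ} (h : IndPath G t m) {i j : ℕ} (hi : i ≤ m) (hj : j ≤ m) :
    G.Adj (t i) (t j) ↔ (j = i + 1 ∨ i = j + 1) := by
  rcases lt_trichotomy i j with h1 | h1 | h1
  · rw [(h i j h1 hj).2]; omega
  · subst h1
    simp
  · rw [G.adj_comm, (h j i h1 hi).2]; omega

theorem IndPath.mono {t : ℕ → V} {m n : ℕ} (h : IndPath G t m) (hn : n ≤ m) : IndPath G t n :=
  fun i j hij hj => h i j hij (hj.trans hn)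

theorem IndPath.ts {t : ℕ → V} {m : ℕ} (h : IndPath G t m) (a b : ℕ) (hab : a ≤ b) (hb : b ≤ m) :
    TS G ((Icc a b).image t) := by
  induction b, hab using Nat.le_induction with
  | base => simpa using TS.single (G := G) (t a)
  | succ b hab ih =>
    have hins : (Icc a (b+1)).image t = insert (t (b+1)) ((Icc a b).image t) := by
      rw [← Finset.image_insert]
      congr 1
      ext x; simp only [Finset.mem_Icc, Finset.mem_insert]; omega
    rw [hins]
    apply TS.attach (ih (by omega)) (s := t b)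
    · rw [Finset.mem_image]
      rintro ⟨i, hi, he⟩
      rw [Finset.mem_Icc] at hi
      exact (h i (b+1) (by omega) hb).1 he
    · exact Finset.mem_image_of_mem _ (by rw [Finset.mem_Icc]; omega)
    · rw [h.adj_iff hb (by omega)]; omega
    · intro s' hs' ha
      rw [Finset.mem_image] at hs'
      obtain ⟨i, hi, rfl⟩ := hs'
      rw [Finset.mem_Icc] at hi
      rw [h.adj_iff hb (by omega)] at ha
      have : i = b := by omega
      rw [this]

theorem IndPath.card {t : ℕ → V} {m : ℕ} (h : IndPath G t m) (a b : ℕ) (hb : b ≤ m) :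
    ((Icc a b).image t).card = b + 1 - a := by
  rw [Finset.card_image_of_injOn, Nat.card_Icc]
  intro i hi j hj he
  simp only [Finset.coe_Icc, Set.mem_Icc] at hi hj
  exact h.inj (by omega) (by omega) he

/-- L2 -/
theorem L2 {t : ℕ → V} {m i0 : ℕ} (h : IndPath G t m) {z : V} (hz : ∀ i ≤ m, z ≠ t i)
    (hi0 : i0 ≤ m) (ha : ∀ i ≤ m, G.Adj z (t i) ↔ i = i0) :
    ∃ S : Finset V, TS G S ∧ S.card = m + 2 := by
  have hzn : z ∉ (Icc 0 m).image t := by
    rw [Finset.mem_image]
    rintro ⟨i, hi, he⟩
    exact hz i (Finset.mem_Icc.mp hi).2 he.symm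
  refine ⟨insert z ((Icc 0 m).image t), ?_, ?_⟩
  · apply TS.attach (h.ts 0 m (by omega) le_rfl) hzn (s := t i0)
    · exact Finset.mem_image_of_mem _ (by rw [Finset.mem_Icc]; omega)
    · rw [ha i0 hi0]
    · intro s' hs' hs
      rw [Finset.mem_image] at hs'
      obtain ⟨i, hi, rfl⟩ := hs'
      rw [ha i (Finset.mem_Icc.mp hi).2] at hs
      rw [hs]
  · rw [Finset.card_insert_of_notMem hzn, h.card 0 m le_rfl]
    omega

/-- L1 -/
theorem L1 {t : ℕ → V} {m k i1 i3 : ℕ} (h : IndPath G t m) {z z' : V} (hz : ∀ i ≤ m, z ≠ t i)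
    (hz' : ∀ i ≤ m, z' ≠ t i) (h1 : i1 < k) (h3 : k < i3) (h3m : i3 ≤ m)
    (ha : ∀ i ≤ m, i ≠ k → (G.Adj z (t i) ↔ (i = i1 ∨ i = i3)))
    (hzz : G.Adj z' z) (ha' : ∀ i ≤ m, ¬ G.Adj z' (t i)) :
    ∃ S : Finset V, TS G S ∧ S.card = m + 2 := by
  set A := (Icc 0 (k-1)).image t with hA
  set B := (Icc (k+1) m).image t with hB
  have memA : ∀ x, x ∈ A → ∃ i, i < k ∧ x = t i := by
    intro x hx
    rw [hA, Finset.mem_image] at hx
    obtain ⟨i, hi, rfl⟩ := hx
    rw [Finset.mem_Icc] at hi
    exact ⟨i, by omega, rfl⟩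
  have memB : ∀ x, x ∈ B → ∃ i, k < i ∧ i ≤ m ∧ x = t i := by
    intro x hx
    rw [hB, Finset.mem_image] at hx
    obtain ⟨i, hi, rfl⟩ := hx
    rw [Finset.mem_Icc] at hi
    exact ⟨i, by omega, by omega, rfl⟩
  have hzA : z ∉ A := by
    intro hx
    obtain ⟨i, hi, he⟩ := memA _ hx
    exact hz i (by omega) he
  have hzB : z ∉ B := by
    intro hx
    obtain ⟨i, hi, hi2, he⟩ := memB _ hx
    exact hz i (by omega) he
  have hAts : TS G A := h.ts 0 (k-1) (by omega) (by omega)
  have hBts : TS G B := h.ts (k+1) m (by omega) le_rfl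
  have hcA : A.card = k := by rw [hA, h.card 0 (k-1) (by omega)]; omega
  have hcB : B.card = m - k := by rw [hB, h.card (k+1) m le_rfl]; omega
  have hAz : TS G (insert z A) := by
    apply TS.attach hAts hzA (s := t i1)
    · exact Finset.mem_image_of_mem _ (by rw [Finset.mem_Icc]; omega)
    · rw [ha i1 (by omega) (by omega)]; left; rfl
    · intro s' hs' hs
      obtain ⟨i, hi, rfl⟩ := memA _ hs'
      rw [ha i (by omega) (by omega)] at hs
      have : i = i1 := by omega
      rw [this]
  have hdAB : Disjoint (insert z A) B := by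
    rw [Finset.disjoint_left]
    intro x hx hxB
    obtain ⟨j, hj, hj2, hje⟩ := memB _ hxB
    rw [Finset.mem_insert] at hx
    rcases hx with rfl | hx
    · exact hzB hxB
    · obtain ⟨i, hi, hie⟩ := memA _ hx
      have := h.inj (by omega) hj2 (hie.symm.trans hje)
      omega
  have hAB : TS G (insert z A ∪ B) := by
    apply TS.join hAz hBts hdAB (s := z) (t := t i3) (Finset.mem_insert_self _ _)
    · exact Finset.mem_image_of_mem _ (by rw [Finset.mem_Icc]; omega)
    · rw [ha i3 (by omega) (by omega)]; right; rfl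
    · intro s' hs' t' ht' hst
      obtain ⟨j, hj, hj2, rfl⟩ := memB _ ht'
      rw [Finset.mem_insert] at hs'
      rcases hs' with rfl | hs'
      · rw [ha j (by omega) (by omega)] at hst
        have : j = i3 := by omega
        rw [this]
        exact ⟨rfl, rfl⟩
      · obtain ⟨i, hi, rfl⟩ := memA _ hs'
        rw [h.adj_iff (by omega) hj2] at hst
        omega
  have hz'n : z' ∉ insert z A ∪ B := by
    rw [Finset.mem_union, Finset.mem_insert]
    rintro ((rfl | hx) | hx)
    · exact hzz.ne rfl
    · obtain ⟨i, hi, he⟩ := memA _ hx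
      exact hz' i (by omega) he
    · obtain ⟨i, hi, hi2, he⟩ := memB _ hx
      exact hz' i (by omega) he
  refine ⟨insert z' (insert z A ∪ B), ?_, ?_⟩
  · apply TS.attach hAB hz'n (s := z)
    · rw [Finset.mem_union, Finset.mem_insert]; left; left; rfl
    · exact hzz
    · intro s' hs' hs
      rw [Finset.mem_union, Finset.mem_insert] at hs'
      rcases hs' with (rfl | hx) | hx
      · rfl
      · obtain ⟨i, hi, rfl⟩ := memA _ hx
        exact absurd hs (ha' i (by omega))
      · obtain ⟨i, hi, hi2, rfl⟩ := memB _ hx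
        exact absurd hs (ha' i (by omega))
  · rw [Finset.card_insert_of_notMem hz'n, Finset.card_union_of_disjoint hdAB,
      Finset.card_insert_of_notMem hzA, hcA, hcB]
    omega

/-- Exactly one or exactly three neighbours on an induced path. -/
theorem L13 {t : ℕ → V} {m : ℕ} (h : IndPath G t m) {z z' : V} (hz : ∀ i ≤ m, z ≠ t i)
    (hz' : ∀ i ≤ m, z' ≠ t i) (hzz : G.Adj z' z) (ha' : ∀ i ≤ m, ¬ G.Adj z' (t i))
    (N : Finset ℕ) (hN : ∀ i, i ∈ N ↔ i ≤ m ∧ G.Adj z (t i)) (hc : N.card = 1 ∨ N.card = 3) :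
    ∃ S : Finset V, TS G S ∧ S.card = m + 2 := by
  rcases hc with hc | hc
  · obtain ⟨i0, hi0⟩ := Finset.card_eq_one.mp hc
    have hi0m : i0 ≤ m := ((hN i0).mp (by rw [hi0]; simp)).1
    apply L2 h hz hi0m
    intro i hi
    have := hN i
    rw [hi0, Finset.mem_singleton] at this
    rw [this]
    tauto
  · obtain ⟨x, y, w, hxy, hxw, hyw, hs⟩ := Finset.card_eq_three.mp hc
    have hsort : ∃ i1 i2 i3, i1 < i2 ∧ i2 < i3 ∧ ∀ i, i ∈ N ↔ (i = i1 ∨ i = i2 ∨ i = i3) := by
      rcases lt_or_gt_of_ne hxy with h1 | h1 <;> rcases lt_or_gt_of_ne hxw with h2 | h2 <;>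
        rcases lt_or_gt_of_ne hyw with h3 | h3
      · exact ⟨x, y, w, h1, h3, fun i => by rw [hs]; simp⟩
      · exact ⟨x, w, y, h2, h3, fun i => by rw [hs]; simp; tauto⟩
      · omega
      · exact ⟨w, x, y, h2, h1, fun i => by rw [hs]; simp; tauto⟩
      · exact ⟨y, x, w, h1, h2, fun i => by rw [hs]; simp; tauto⟩
      · omega
      · exact ⟨y, w, x, h3, h2, fun i => by rw [hs]; simp; tauto⟩
      · exact ⟨w, y, x, h3, h1, fun i => by rw [hs]; simp; tauto⟩
    obtain ⟨i1, i2, i3, h12, h23, hi⟩ := hsort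
    have h3m : i3 ≤ m := ((hN i3).mp ((hi i3).mpr (by tauto))).1
    apply L1 h hz hz' h12 h23 h3m _ hzz ha'
    intro i him hik
    have h1 := hN i
    have h2 := hi i
    constructor
    · intro ha
      have := h2.mp (h1.mpr ⟨him, ha⟩)
      omega
    · intro ha
      exact (h1.mp (h2.mpr (by omega))).2

/-- two-sided path -/
def two (a b : ℕ → V) (n : ℕ) : ℕ → V := fun i => if i ≤ n then a (n - i) else b (i - n)

theorem two_ind {a b : ℕ → V} {n n' : ℕ} (ha : IndPath G a n) (hb : IndPath G b n')
    (h0 : a 0 = b 0)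
    (hab : ∀ i j, 1 ≤ i → i ≤ n → 1 ≤ j → j ≤ n' → a i ≠ b j ∧ ¬ G.Adj (a i) (b j)) :
    IndPath G (two a b n) (n + n') := by
  intro i j hij hj
  unfold two
  by_cases h1 : i ≤ n
  · rw [if_pos h1]
    by_cases h2 : j ≤ n
    · rw [if_pos h2]
      have := ha (n - j) (n - i) (by omega) (by omega)
      refine ⟨this.1.symm, ?_⟩
      rw [G.adj_comm, this.2]
      omega
    · rw [if_neg h2]
      by_cases h3 : i = n
      · subst h3
        rw [Nat.sub_self, h0]
        have := hb 0 (j - i) (by omega) (by omega)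
        refine ⟨this.1, ?_⟩
        rw [this.2]
        omega
      · have := hab (n - i) (j - n) (by omega) (by omega) (by omega) (by omega)
        refine ⟨this.1, ?_⟩
        constructor
        · intro h; exact absurd h this.2
        · intro h; omega
  · rw [if_neg h1, if_neg (by omega)]
    have := hb (i - n) (j - n) (by omega) (by omega)
    refine ⟨this.1, ?_⟩
    rw [this.2]
    omega

/-- Removing a vertex of an induced cycle. -/
theorem rot {t : ℕ → V} {m : ℕ} (h : IndPath G t m) (hm : 1 ≤ m) {v : V} (hv : ∀ i ≤ m, v ≠ t i)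
    (hva : ∀ i ≤ m, G.Adj v (t i) ↔ (i = 0 ∨ i = m))
    {w : V} (hw : w ∈ insert v ((Icc 0 m).image t)) :
    ∃ t' : ℕ → V, IndPath G t' m ∧
      (Icc 0 m).image t' = (insert v ((Icc 0 m).image t)).erase w := by
  rw [Finset.mem_insert] at hw
  have hvn : v ∉ (Icc 0 m).image t := by
    rw [Finset.mem_image]
    rintro ⟨i, hi, he⟩
    exact hv i (Finset.mem_Icc.mp hi).2 he.symm
  rcases hw with rfl | hw
  · exact ⟨t, h, by rw [Finset.erase_insert hvn]⟩
  · rw [Finset.mem_image] at hw
    obtain ⟨k, hk, rfl⟩ := hw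
    have hk' : k ≤ m := (Finset.mem_Icc.mp hk).2
    set t' : ℕ → V := fun i => if i + k + 1 ≤ m then t (i + k + 1) else
      if i + k = m then v else t (i + k - m - 1) with ht'
    have hind : IndPath G t' m := by
      intro i j hij hj
      simp only [ht']
      by_cases h1 : i + k + 1 ≤ m
      · rw [if_pos h1]
        by_cases h2 : j + k + 1 ≤ m
        · rw [if_pos h2]
          have := h (i + k + 1) (j + k + 1) (by omega) h2
          refine ⟨this.1, ?_⟩
          rw [this.2]; omega
        · rw [if_neg h2]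
          by_cases h3 : j + k = m
          · rw [if_pos h3]
            refine ⟨(hv _ h1).symm, ?_⟩
            rw [G.adj_comm, hva _ h1]
            omega
          · rw [if_neg h3]
            refine ⟨?_, ?_⟩
            · intro he
              have := h.inj (by omega) (by omega) he
              omega
            · rw [h.adj_iff (by omega) (by omega)]
              omega
      · rw [if_neg h1, if_neg (show ¬ (j + k + 1 ≤ m) by omega)]
        by_cases h3 : i + k = m
        · rw [if_pos h3, if_neg (show ¬ (j + k = m) by omega)]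
          refine ⟨hv _ (by omega), ?_⟩
          rw [hva _ (by omega)]
          omega
        · rw [if_neg h3, if_neg (show ¬ (j + k = m) by omega)]
          refine ⟨?_, ?_⟩
          · intro he
            have := h.inj (by omega) (by omega) he
            omega
          · rw [h.adj_iff (by omega) (by omega)]
            omega
    refine ⟨t', hind, ?_⟩
    symm
    apply Finset.eq_of_superset_of_card_ge
    · intro x hx
      rw [Finset.mem_image] at hx
      obtain ⟨i, hi, rfl⟩ := hx
      have hi' : i ≤ m := (Finset.mem_Icc.mp hi).2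
      rw [Finset.mem_erase, Finset.mem_insert]
      simp only [ht']
      by_cases h1 : i + k + 1 ≤ m
      · rw [if_pos h1]
        refine ⟨?_, Or.inr (Finset.mem_image_of_mem _ (by rw [Finset.mem_Icc]; omega))⟩
        intro he
        have := h.inj h1 hk' he
        omega
      · rw [if_neg h1]
        by_cases h3 : i + k = m
        · rw [if_pos h3]
          exact ⟨hv _ hk', Or.inl rfl⟩
        · rw [if_neg h3]
          refine ⟨?_, Or.inr (Finset.mem_image_of_mem _ (by rw [Finset.mem_Icc]; omega))⟩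
          intro he
          have := h.inj (by omega) hk' he
          omega
    · rw [hind.card 0 m le_rfl, Finset.card_erase_of_mem
        (Finset.mem_insert_of_mem (Finset.mem_image_of_mem _ hk)),
        Finset.card_insert_of_notMem hvn, h.card 0 m le_rfl]
      omega

/-- Case (C): an induced cycle `C` on `m + 2` vertices, a vertex `z` outside with between one and
four neighbours on `C`, and a neighbour `z'` of `z` outside `C` without neighbours on `C`. -/
theorem cyc {t : ℕ → V} {m : ℕ} (h : IndPath G t m) (hm : 4 ≤ m) {v : V} (hv : ∀ i ≤ m, v ≠ t i)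
    (hva : ∀ i ≤ m, G.Adj v (t i) ↔ (i = 0 ∨ i = m))
    {z z' : V} (hzC : z ∉ insert v ((Icc 0 m).image t)) (hzC' : z' ∉ insert v ((Icc 0 m).image t))
    (hzz : G.Adj z' z) (ha' : ∀ x ∈ insert v ((Icc 0 m).image t), ¬ G.Adj z' x)
    (N : Finset V) (hN : ∀ x, x ∈ N ↔ x ∈ insert v ((Icc 0 m).image t) ∧ G.Adj z x)
    (h1 : 1 ≤ N.card) (h4 : N.card ≤ 4) :
    ∃ S : Finset V, TS G S ∧ S.card = m + 2 := by
  classical
  set C := insert v ((Icc 0 m).image t) with hC
  have hvn : v ∉ (Icc 0 m).image t := by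
    rw [Finset.mem_image]
    rintro ⟨i, hi, he⟩
    exact hv i (Finset.mem_Icc.mp hi).2 he.symm
  have hCcard : C.card = m + 2 := by
    rw [hC, Finset.card_insert_of_notMem hvn, h.card 0 m le_rfl]
    omega
  have key : ∀ w ∈ C, ((N.erase w).card = 1 ∨ (N.erase w).card = 3) →
      ∃ S : Finset V, TS G S ∧ S.card = m + 2 := by
    intro w hw hcard
    obtain ⟨t', ht', himg⟩ := rot h (by omega) hv hva hw
    have hmem : ∀ i ≤ m, t' i ∈ C.erase w := by
      intro i hi
      rw [← himg]
      exact Finset.mem_image_of_mem _ (by rw [Finset.mem_Icc]; omega)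
    have hmemC : ∀ i ≤ m, t' i ∈ C := fun i hi => Finset.mem_of_mem_erase (hmem i hi)
    apply L13 ht' (z := z) (z' := z') (fun i hi he => hzC (he ▸ hmemC i hi))
      (fun i hi he => hzC' (he ▸ hmemC i hi)) hzz (fun i hi => ha' _ (hmemC i hi))
      ((Icc 0 m).filter (fun i => G.Adj z (t' i)))
      (by intro i; rw [Finset.mem_filter, Finset.mem_Icc]; simp)
    have hNe : N.erase w = ((Icc 0 m).filter (fun i => G.Adj z (t' i))).image t' := by
      ext x
      rw [Finset.mem_erase, hN, Finset.mem_image]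
      constructor
      · rintro ⟨hxw, hxC, hxa⟩
        have : x ∈ (Icc 0 m).image t' := by rw [himg]; exact Finset.mem_erase.mpr ⟨hxw, hxC⟩
        rw [Finset.mem_image] at this
        obtain ⟨i, hi, rfl⟩ := this
        exact ⟨i, Finset.mem_filter.mpr ⟨hi, hxa⟩, rfl⟩
      · rintro ⟨i, hi, rfl⟩
        rw [Finset.mem_filter] at hi
        have := hmem i (Finset.mem_Icc.mp hi.1).2
        rw [Finset.mem_erase] at this
        exact ⟨this.1, this.2, hi.2⟩
    have hNc : (N.erase w).card = ((Icc 0 m).filter (fun i => G.Adj z (t' i))).card := by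
      rw [hNe, Finset.card_image_of_injOn]
      intro i hi j hj he
      simp only [Finset.coe_filter, Set.mem_setOf_eq, Finset.mem_Icc] at hi hj
      exact ht'.inj hi.1.2 hj.1.2 he
    rw [← hNc]
    exact hcard
  have hNC : N ⊆ C := fun x hx => ((hN x).mp hx).1
  have hcases : (N.card = 1 ∨ N.card = 3) ∨ (N.card = 2 ∨ N.card = 4) := by omega
  rcases hcases with hc | hc
  · have : ∃ w ∈ C, w ∉ N := by
      by_contra hcon
      push Not at hcon
      have := Finset.card_le_card (show C ⊆ N from hcon)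
      omega
    obtain ⟨w, hwC, hwN⟩ := this
    apply key w hwC
    rw [Finset.erase_eq_of_notMem hwN]
    exact hc
  · obtain ⟨w, hwN⟩ := Finset.card_pos.mp (show 0 < N.card by omega)
    apply key w (hNC hwN)
    rw [Finset.card_erase_of_mem hwN]
    omega

end Pool.Agent.R483.LT
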