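import Mathlib

/-!
Induced trees: a Finset `S` of vertices is a tree set if `G[S]` is connected and has
`|S| - 1` edges (counted by ordered pairs).
-/

namespace Pool.Agent.R483.LT

open SimpleGraph Finset

variable {V : Type*} {G : SimpleGraph V}

open Classical in
/-- ordered count of edges inside `S` -/
noncomputable def eo (G : SimpleGraph V) (S T : Finset V) : ℕ :=
  ∑ v ∈ S, (T.filter (fun w => G.Adj v w)).card

def TS (G : SimpleGraph V) (S : Finset V) : Prop :=
  (G.induce (S : Set V)).Connected ∧ eo G S S + 2 = 2 * S.card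

open Classical in
theorem eo_eq_two_edges (S : Finset V) :
    eo G S S = 2 * Nat.card (G.induce (S : Set V)).edgeSet := by
  rw [Nat.card_eq_fintype_card, ← edgeFinset_card, ← SimpleGraph.sum_degrees_eq_twice_card_edges]
  unfold eo
  rw [← Finset.sum_coe_sort S]
  apply Finset.sum_congr rfl
  intro v _
  rw [← SimpleGraph.card_neighborFinset_eq_degree]
  refine Finset.card_bij' (fun w hw => (⟨w, by simpa using (Finset.mem_filter.mp hw).1⟩ : (S : Set V)))
    (fun w _ => (w : V)) ?_ ?_ ?_ ?_
  · intro w hw
    simp only [Finset.mem_filter] at hw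
    rw [mem_neighborFinset]
    exact hw.2
  · intro w hw
    rw [mem_neighborFinset] at hw
    simp only [Finset.mem_filter]
    exact ⟨by simpa using w.2, hw⟩
  · intro w hw; rfl
  · intro w hw; rfl

theorem TS.isTree {S : Finset V} (h : TS G S) : (G.induce (S : Set V)).IsTree := by
  rw [isTree_iff_connected_and_card]
  refine ⟨h.1, ?_⟩
  have h2 := h.2
  rw [eo_eq_two_edges] at h2
  have h3 : Nat.card ((S : Set V) : Type _) = S.card := by simp
  rw [h3]
  omega

theorem TS.single (v : V) : TS G {v} := by
  classical
  constructor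
  · have : (({v} : Finset V) : Set V) = {v} := by simp
    rw [this]
    have : Subsingleton ({v} : Set V) := by infer_instance
    exact IsTree.of_subsingleton.connected
  · simp [eo]

theorem eo_union_left [DecidableEq V] {S T U : Finset V} (h : Disjoint S T) :
    eo G (S ∪ T) U = eo G S U + eo G T U := by
  unfold eo
  rw [Finset.sum_union h]

theorem eo_union_right [DecidableEq V] {S T U : Finset V} (h : Disjoint S T) :
    eo G U (S ∪ T) = eo G U S + eo G U T := by
  classical
  unfold eo
  rw [← Finset.sum_add_distrib]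
  apply Finset.sum_congr rfl
  intro v _
  rw [Finset.filter_union, Finset.card_union_of_disjoint]
  exact Finset.disjoint_filter_filter h

open Classical in
theorem eo_one {S T : Finset V} {s t : V} (hs : s ∈ S) (ht : t ∈ T) (hst : G.Adj s t)
    (hu : ∀ s' ∈ S, ∀ t' ∈ T, G.Adj s' t' → s' = s ∧ t' = t) : eo G S T = 1 := by
  unfold eo
  rw [Finset.sum_eq_single s]
  · rw [Finset.card_eq_one]
    refine ⟨t, ?_⟩
    ext w
    simp only [Finset.mem_filter, Finset.mem_singleton]
    constructor
    · rintro ⟨hw, ha⟩
      exact (hu s hs w hw ha).2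
    · rintro rfl
      exact ⟨ht, hst⟩
  · intro v hv hne
    rw [Finset.card_eq_zero, Finset.filter_eq_empty_iff]
    intro w hw ha
    exact hne (hu v hv w hw ha).1
  · intro h; exact absurd hs h

theorem TS.join [DecidableEq V] {S T : Finset V} (hS : TS G S) (hT : TS G T) (hd : Disjoint S T) {s t : V}
    (hs : s ∈ S) (ht : t ∈ T) (hst : G.Adj s t)
    (hu : ∀ s' ∈ S, ∀ t' ∈ T, G.Adj s' t' → s' = s ∧ t' = t) : TS G (S ∪ T) := by
  constructor
  · have : ((S ∪ T : Finset V) : Set V) = (S : Set V) ∪ (T : Set V) := by simp
    rw [this]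
    exact connected_induce_union hS.1.preconnected hT.1.preconnected (by simpa using hs)
      (by simpa using ht) hst
  · have e1 : eo G S T = 1 := eo_one hs ht hst hu
    have e2 : eo G T S = 1 := eo_one ht hs hst.symm
      (fun a ha b hb hab => (hu b hb a ha hab.symm).symm)
    have e3 := hS.2
    have e4 := hT.2
    have e5 : eo G (S ∪ T) (S ∪ T) = eo G S S + eo G S T + (eo G T S + eo G T T) := by
      have h1 := eo_union_left (G := G) (U := S ∪ T) hd
      have h2 := eo_union_right (G := G) (U := S) hd
      have h3 := eo_union_right (G := G) (U := T) hd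
      rw [h1, h2, h3]
    rw [e5, Finset.card_union_of_disjoint hd]
    omega

/-- Attach one vertex. -/
theorem TS.attach [DecidableEq V] {S : Finset V} (hS : TS G S) {z s : V} (hz : z ∉ S) (hs : s ∈ S)
    (hsz : G.Adj z s) (hu : ∀ s' ∈ S, G.Adj z s' → s' = s) : TS G (insert z S) := by
  have : insert z S = {z} ∪ S := by rfl
  rw [this]
  apply TS.join (TS.single z) hS (by simpa using hz) (Finset.mem_singleton_self z) hs hsz
  intro a ha b hb hab
  rw [Finset.mem_singleton] at ha
  subst ha
  exact ⟨rfl, hu b hb hab⟩

end Pool.Agent.R483.LT
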